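import Pool.Agent.EQC.Stmts

set_option autoImplicit false

open SimpleGraph Finset
open Pool.Agent.Helper51_Equitable (edges nbrs vertexSum nb IsEquitableProper Nice)

namespace Pool.Agent.EQC.H19

open Classical in
theorem num_swap {V : Type} [Fintype V] (G : SimpleGraph V) (κ : Sym2 V → ℕ) (φ : Sym2 V → Fin 4)
    (a b : Sym2 V) (ha : a ∈ edges G) (hb : b ∈ edges G) (hκ : κ a = κ b) (k : ℕ) (f : Fin 4) :
    num G κ (fun e => φ (Equiv.swap a b e)) k f = num G κ φ k f := by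
  have key : ∀ e, e ∈ edges G → Equiv.swap a b e ∈ edges G ∧ κ (Equiv.swap a b e) = κ e := by
    intro e he
    by_cases h1 : e = a
    · rw [h1, Equiv.swap_apply_left]
      exact ⟨hb, hκ.symm⟩
    · by_cases h2 : e = b
      · rw [h2, Equiv.swap_apply_right]
        exact ⟨ha, hκ⟩
      · rw [Equiv.swap_apply_of_ne_of_ne h1 h2]
        exact ⟨he, rfl⟩
  unfold num
  refine Finset.card_bij (fun e _ => Equiv.swap a b e) ?_ ?_ ?_
  · intro e he
    rw [Finset.mem_filter] at he ⊢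
    obtain ⟨h1, h2⟩ := key e he.1
    exact ⟨h1, h2.trans he.2.1, he.2.2⟩
  · intro e _ e' _ h
    exact (Equiv.swap a b).injective h
  · intro e he
    rw [Finset.mem_filter] at he
    obtain ⟨h1, h2⟩ := key e he.1
    refine ⟨Equiv.swap a b e, ?_, Equiv.swap_apply_self a b e⟩
    rw [Finset.mem_filter]
    refine ⟨h1, h2.trans he.2.1, ?_⟩
    show φ (Equiv.swap a b (Equiv.swap a b e)) = f
    rw [Equiv.swap_apply_self]
    exact he.2.2

open Classical in
theorem sum_swap {V : Type} [Fintype V] (G : SimpleGraph V) (c : ℕ) (φ : Sym2 V → Fin 4)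
    (a b : Sym2 V) (ha : a ∈ edges G) (hb : b ∈ edges G) (hab : a ≠ b) (v : V) :
    ∑ e ∈ at' G v, (fv c (φ (Equiv.swap a b e)) : ℤ) =
      ∑ e ∈ at' G v, (fv c (φ e) : ℤ) +
        ((fv c (φ b) : ℤ) - (fv c (φ a) : ℤ)) * sg a b v := by
  have hpt : ∀ e : Sym2 V, (fv c (φ (Equiv.swap a b e)) : ℤ) = (fv c (φ e) : ℤ) +
      ((if e = a then ((fv c (φ b) : ℤ) - (fv c (φ a) : ℤ)) else 0) -
        (if e = b then ((fv c (φ b) : ℤ) - (fv c (φ a) : ℤ)) else 0)) := by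
    intro e
    by_cases h1 : e = a
    · subst h1
      rw [Equiv.swap_apply_left, if_pos rfl, if_neg hab]
      ring
    · by_cases h2 : e = b
      · subst h2
        rw [Equiv.swap_apply_right, if_neg h1, if_pos rfl]
        ring
      · rw [Equiv.swap_apply_of_ne_of_ne h1 h2, if_neg h1, if_neg h2]
        ring
  rw [Finset.sum_congr rfl fun e _ => hpt e, Finset.sum_add_distrib, Finset.sum_sub_distrib,
    Finset.sum_ite_eq', Finset.sum_ite_eq']
  have m1 : (a ∈ at' G v) ↔ v ∈ a := by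
    unfold at'
    rw [Finset.mem_filter]
    exact ⟨fun h => h.2, fun h => ⟨ha, h⟩⟩
  have m2 : (b ∈ at' G v) ↔ v ∈ b := by
    unfold at'
    rw [Finset.mem_filter]
    exact ⟨fun h => h.2, fun h => ⟨hb, h⟩⟩
  unfold sg
  by_cases h1 : v ∈ a <;> by_cases h2 : v ∈ b <;> simp only [m1, m2, h1, h2, if_true, if_false] <;>
    ring

theorem flp_aux (V : Type) [Fintype V] (G : SimpleGraph V) (c D : ℕ) (ι : Type) [Fintype ι]
    (P : Prs G D ι) (κ : Sym2 V → ℕ) (φ : Sym2 V → Fin 4) (F : Finset ι)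
    (hκ : ∀ i, κ (P.e0 i) = κ (P.e1 i))
    (hφ : ∀ i, φ (P.e0 i) = (if P.ty i then 0 else 2) ∧ φ (P.e1 i) = (if P.ty i then 1 else 3)) :
    ∃ φ' : Sym2 V → Fin 4, (∀ k f, num G κ φ' k f = num G κ φ k f) ∧
      (∀ v, ∑ e ∈ at' G v, (fv c (φ' e) : ℤ) =
        ∑ e ∈ at' G v, (fv c (φ e) : ℤ) + ∑ i ∈ F, wt c (P.ty i) * sg (P.e0 i) (P.e1 i) v) ∧
      ∀ i, i ∉ F → φ' (P.e0 i) = φ (P.e0 i) ∧ φ' (P.e1 i) = φ (P.e1 i) := by
  classical
  induction F using Finset.induction_on with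
  | empty => exact ⟨φ, fun _ _ => rfl, fun v => by simp, fun _ _ => ⟨rfl, rfl⟩⟩
  | insert i F hi ih =>
    obtain ⟨φ', h1, h2, h3⟩ := ih
    have hne : P.e0 i ≠ P.e1 i := P.e01 i i
    refine ⟨fun e => φ' (Equiv.swap (P.e0 i) (P.e1 i) e), ?_, ?_, ?_⟩
    · intro k f
      rw [← h1 k f]
      exact num_swap G κ φ' _ _ (P.e0_mem i) (P.e1_mem i) (hκ i) k f
    · intro v
      rw [Finset.sum_insert hi]
      have hs := sum_swap G c φ' _ _ (P.e0_mem i) (P.e1_mem i) hne v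
      rw [(h3 i hi).1, (h3 i hi).2, (hφ i).1, (hφ i).2, h2 v] at hs
      have hw : ((fv c (if P.ty i then 1 else 3 : Fin 4) : ℤ) -
          (fv c (if P.ty i then 0 else 2 : Fin 4) : ℤ)) = wt c (P.ty i) := by
        cases P.ty i
        · simp [fv, wt]
        · simp [fv, wt]
      rw [hw] at hs
      refine hs.trans ?_
      ring
    · intro j hj
      rw [Finset.mem_insert, not_or] at hj
      obtain ⟨h4, h5⟩ := h3 j hj.2
      refine ⟨?_, ?_⟩
      · show φ' (Equiv.swap (P.e0 i) (P.e1 i) (P.e0 j)) = _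
        rw [Equiv.swap_apply_of_ne_of_ne (fun h => hj.1 (P.e0_inj _ _ h)) (P.e01 j i), h4]
      · show φ' (Equiv.swap (P.e0 i) (P.e1 i) (P.e1 j)) = _
        rw [Equiv.swap_apply_of_ne_of_ne (fun h => P.e01 i j h.symm)
          (fun h => hj.1 (P.e1_inj _ _ h)), h5]

theorem flp : FlpStmt := by
  intro V _ G c D ι _ P κ φ F hκ hφ
  obtain ⟨φ', h1, h2, -⟩ := flp_aux V G c D ι P κ φ F hκ hφ
  exact ⟨φ', h1, h2⟩

end Pool.Agent.EQC.H19
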